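import Pool.Agent.Helper78.DT.Goals

/-!
# Project DT (MP_34c247_lc), packet BIA: the bits from uniform elements of `Fin R` are almost uniform
-/

namespace Pool.Agent.Helper93.DT

open Pool.Agent.Helper78.DT

open scoped Classical

/-- The probability of `φ` if the coordinates in `A` are uniform bits and the others come from
uniform elements of `Fin R`. -/
noncomputable def hy (R P : ℕ) (φ : (Fin P → Bool) → Prop) (A : Finset (Fin P)) : ℝ :=
  pr fun z : Fin P → Bool × Fin R => φ fun u => if u ∈ A then (z u).1 else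
    decide (2 * ((z u).2 : ℕ) < R)

theorem av_fst {α β : Type*} [Fintype α] [Fintype β] [Nonempty β] (F : α → ℝ) :
    av (fun z : α × β => F z.1) = av F := by
  rw [av_prod]
  exact av_congr fun a => av_const (F a)

theorem av_snd {α β : Type*} [Fintype α] [Fintype β] [Nonempty α] (F : β → ℝ) :
    av (fun z : α × β => F z.2) = av F := by
  rw [av_prod]
  exact av_const (Ω := α) (av F)

theorem hy_empty (R P : ℕ) (φ : (Fin P → Bool) → Prop) : hy R P φ ∅ = bp R P φ := by
  unfold hy bp pr
  have h := av_equiv (Equiv.arrowProdEquivProdArrow (Fin P) (fun _ => Bool) (fun _ => Fin R)).symm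
    (fun z : Fin P → Bool × Fin R => if φ (fun u => if u ∈ (∅ : Finset (Fin P)) then (z u).1 else
      decide (2 * ((z u).2 : ℕ) < R)) then (1 : ℝ) else 0)
  rw [← h]
  have h2 := av_snd (α := Fin P → Bool) (fun y : Fin P → Fin R =>
    if φ (fun u => decide (2 * (y u : ℕ) < R)) then (1 : ℝ) else 0)
  rw [← h2]
  refine av_congr fun z => ?_
  simp only [Finset.notMem_empty, if_false]
  rfl

theorem hy_full (R P : ℕ) (hR : 0 < R) (φ : (Fin P → Bool) → Prop) (S : Set (Fin P))
    (hφ : Dep S φ) (A : Finset (Fin P)) (hA : ∀ u ∈ S, u ∈ A) : hy R P φ A = pr φ := by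
  have : Nonempty (Fin R) := ⟨⟨0, hR⟩⟩
  unfold hy pr
  have h := av_equiv (Equiv.arrowProdEquivProdArrow (Fin P) (fun _ => Bool) (fun _ => Fin R)).symm
    (fun z : Fin P → Bool × Fin R => if φ (fun u => if u ∈ A then (z u).1 else
      decide (2 * ((z u).2 : ℕ) < R)) then (1 : ℝ) else 0)
  rw [← h]
  have h2 := av_fst (β := Fin P → Fin R) (fun x : Fin P → Bool => if φ x then (1 : ℝ) else 0)
  rw [← h2]
  refine av_congr fun z => ?_
  have h3 : φ (fun u => if u ∈ A then (((Equiv.arrowProdEquivProdArrow (Fin P) (fun _ => Bool)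
      (fun _ => Fin R)).symm z) u).1 else decide (2 * (((((Equiv.arrowProdEquivProdArrow (Fin P)
      (fun _ => Bool) (fun _ => Fin R)).symm z) u).2 : Fin R) : ℕ) < R)) ↔ φ z.1 := by
    apply hφ
    intro v hv
    rw [if_pos (hA v hv)]
    rfl
  rw [if_congr h3 rfl rfl]

theorem cnt (R : ℕ) : (Finset.univ.filter fun y : Fin R => 2 * (y : ℕ) < R).card = (R + 1) / 2 := by
  have h : (Finset.univ.filter fun y : Fin R => 2 * (y : ℕ) < R).card =
      (Finset.range ((R + 1) / 2)).card := by
    refine Finset.card_bij (fun y _ => (y : ℕ)) ?_ ?_ ?_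
    · intro y hy
      simp only [Finset.mem_filter, Finset.mem_univ, true_and] at hy
      rw [Finset.mem_range]
      omega
    · intro y _ y' _ h
      exact Fin.ext h
    · intro b hb
      rw [Finset.mem_range] at hb
      exact ⟨⟨b, by omega⟩, by simp only [Finset.mem_filter, Finset.mem_univ, true_and]; omega, rfl⟩
  rw [h, Finset.card_range]

theorem one_bit (R : ℕ) (hR : 0 < R) (ψ : Bool → ℝ) (h0 : |ψ true - ψ false| ≤ 1) :
    |(av fun b : Bool × Fin R => ψ (decide (2 * (b.2 : ℕ) < R))) - av fun b : Bool × Fin R => ψ b.1| ≤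
      1 / R := by
  have : Nonempty (Fin R) := ⟨⟨0, hR⟩⟩
  rw [av_snd (α := Bool) (fun y : Fin R => ψ (decide (2 * (y : ℕ) < R))),
    av_fst (β := Fin R) (fun b : Bool => ψ b)]
  have hR' : (0 : ℝ) < R := by exact_mod_cast hR
  have e1 : av (fun b : Bool => ψ b) = (ψ true + ψ false) / 2 := by
    unfold av
    simp
  have e2 : av (fun y : Fin R => ψ (decide (2 * (y : ℕ) < R))) =
      ψ false + (ψ true - ψ false) * ((((R + 1) / 2 : ℕ) : ℝ) / R) := by
    have h3 : ∀ y : Fin R, ψ (decide (2 * (y : ℕ) < R)) =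
        ψ false + (ψ true - ψ false) * (if 2 * (y : ℕ) < R then (1 : ℝ) else 0) := by
      intro y
      by_cases h : 2 * (y : ℕ) < R
      · simp [h]
      · simp [h]
    rw [av_congr h3, av_add, av_mul_left, av_const]
    congr 2
    unfold av
    rw [Finset.sum_boole, cnt, Fintype.card_fin]
  rw [e1, e2]
  have h4 : (ψ false + (ψ true - ψ false) * ((((R + 1) / 2 : ℕ) : ℝ) / R)) - (ψ true + ψ false) / 2 =
      (ψ true - ψ false) * ((((R + 1) / 2 : ℕ) : ℝ) / R - 1 / 2) := by ring
  rw [h4, abs_mul]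
  have h5 : |(((R + 1) / 2 : ℕ) : ℝ) / R - 1 / 2| ≤ 1 / R := by
    have a1 : 2 * ((R + 1) / 2) ≤ R + 1 := by omega
    have a2 : R ≤ 2 * ((R + 1) / 2) := by omega
    have b1 : 2 * (((R + 1) / 2 : ℕ) : ℝ) ≤ R + 1 := by exact_mod_cast a1
    have b2 : (R : ℝ) ≤ 2 * (((R + 1) / 2 : ℕ) : ℝ) := by exact_mod_cast a2
    have e5 : (((R + 1) / 2 : ℕ) : ℝ) / R - 1 / 2 = (2 * (((R + 1) / 2 : ℕ) : ℝ) - R) / (2 * R) := by
      field_simp
    rw [e5, abs_of_nonneg (div_nonneg (by linarith) (by positivity)), div_le_div_iff₀ (by positivity) hR']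
    nlinarith
  calc |ψ true - ψ false| * |(((R + 1) / 2 : ℕ) : ℝ) / R - 1 / 2| ≤ 1 * (1 / R) := by gcongr
    _ = 1 / R := one_mul _

theorem hy_step (R P : ℕ) (hR : 0 < R) (φ : (Fin P → Bool) → Prop) (A : Finset (Fin P))
    (u : Fin P) (hu : u ∉ A) : |hy R P φ A - hy R P φ (insert u A)| ≤ 1 / R := by
  unfold hy pr
  set e := Equiv.funSplitAt u (Bool × Fin R) with he
  have key : ∀ B : Finset (Fin P), av (fun z : Fin P → Bool × Fin R =>
      if φ (fun v => if v ∈ B then (z v).1 else decide (2 * ((z v).2 : ℕ) < R)) then (1 : ℝ) else 0) =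
      av fun r : {j // j ≠ u} → Bool × Fin R => av fun b : Bool × Fin R =>
        if φ (fun v => if v ∈ B then (e.symm (b, r) v).1 else
          decide (2 * ((e.symm (b, r) v).2 : ℕ) < R)) then (1 : ℝ) else 0 := by
    intro B
    have h := av_equiv e.symm (fun z : Fin P → Bool × Fin R =>
      if φ (fun v => if v ∈ B then (z v).1 else decide (2 * ((z v).2 : ℕ) < R)) then (1 : ℝ) else 0)
    rw [← h, av_prod, av_comm]
  rw [key A, key (insert u A), ← av_sub]
  refine (abs_av_le _).trans (av_le_of_le (by positivity) fun r => ?_)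
  set ψ : Bool → ℝ := fun c => if φ (fun v => if h : v = u then c else
    (if v ∈ A then (r ⟨v, h⟩).1 else decide (2 * ((r ⟨v, h⟩).2 : ℕ) < R))) then (1 : ℝ) else 0 with hψ
  have e1 : ∀ b : Bool × Fin R, (if φ (fun v => if v ∈ A then (e.symm (b, r) v).1 else
      decide (2 * ((e.symm (b, r) v).2 : ℕ) < R)) then (1 : ℝ) else 0) =
      ψ (decide (2 * (b.2 : ℕ) < R)) := by
    intro b
    rw [hψ]
    simp only
    have : (fun v => if v ∈ A then (e.symm (b, r) v).1 else
        decide (2 * ((e.symm (b, r) v).2 : ℕ) < R)) = (fun v => if h : v = u then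
        decide (2 * (b.2 : ℕ) < R) else (if v ∈ A then (r ⟨v, h⟩).1 else
        decide (2 * ((r ⟨v, h⟩).2 : ℕ) < R))) := by
      funext v
      by_cases h : v = u
      · subst h
        rw [dif_pos rfl, if_neg hu]
        simp [he]
      · rw [dif_neg h]
        simp [he, h]
    rw [this]
  have e2 : ∀ b : Bool × Fin R, (if φ (fun v => if v ∈ insert u A then (e.symm (b, r) v).1 else
      decide (2 * ((e.symm (b, r) v).2 : ℕ) < R)) then (1 : ℝ) else 0) = ψ b.1 := by
    intro b
    rw [hψ]
    simp only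
    have : (fun v => if v ∈ insert u A then (e.symm (b, r) v).1 else
        decide (2 * ((e.symm (b, r) v).2 : ℕ) < R)) = (fun v => if h : v = u then
        b.1 else (if v ∈ A then (r ⟨v, h⟩).1 else
        decide (2 * ((r ⟨v, h⟩).2 : ℕ) < R))) := by
      funext v
      by_cases h : v = u
      · subst h
        rw [dif_pos rfl, if_pos (Finset.mem_insert_self _ _)]
        simp [he]
      · rw [dif_neg h]
        have h2 : v ∈ insert u A ↔ v ∈ A := by simp [h]
        rw [if_congr h2 rfl rfl]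
        simp [he, h]
    rw [this]
  rw [av_congr e1, av_congr e2]
  apply one_bit R hR ψ
  rw [hψ]
  simp only
  split_ifs <;> norm_num

theorem hy_all (R P : ℕ) (hR : 0 < R) (φ : (Fin P → Bool) → Prop) (A : Finset (Fin P)) :
    |hy R P φ ∅ - hy R P φ A| ≤ A.card / R := by
  induction A using Finset.induction_on with
  | empty => simp
  | insert u A hu ih =>
    have h1 := hy_step R P hR φ A u hu
    rw [Finset.card_insert_of_notMem hu]
    have h2 : hy R P φ ∅ - hy R P φ (insert u A) =
        (hy R P φ ∅ - hy R P φ A) + (hy R P φ A - hy R P φ (insert u A)) := by ring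
    rw [h2]
    refine (abs_add_le _ _).trans ?_
    push_cast
    rw [add_div]
    linarith

theorem bia : BiaStmt := by
  intro R P σ hR φ S hφ hS
  have h1 := hy_all R P hR φ S.toFinset
  rw [hy_empty, hy_full R P hR φ S hφ S.toFinset (fun u hu => Set.mem_toFinset.2 hu)] at h1
  refine h1.trans ?_
  have h2 : S.toFinset.card ≤ σ := by
    rw [← Set.ncard_eq_toFinset_card']
    exact hS
  have h3 : ((S.toFinset.card : ℕ) : ℝ) ≤ σ := by exact_mod_cast h2
  gcongr

end Pool.Agent.Helper93.DT
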